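import Pool.Agent.H329R3.PM.Stmts

/-! From a profile with the pointwise relation to a weak solution. -/

set_option autoImplicit false

open MeasureTheory Set Filter Topology
open scoped RealInnerProductSpace

namespace Pool.Agent.H830R3.PM

open Pool.Agent.H329R3.PM

theorem integ {β : Type} [NormedAddCommGroup β] (T R B : ℝ) (f : E 3 × ℝ → β)
    (hf : AEStronglyMeasurable f (volume.prod (volume.restrict (Ioo 0 T))))
    (hb : ∀ x t, t ∈ Ioo 0 T → ‖f (x, t)‖ ≤ B)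
    (hs : ∀ x t, t ∈ Ioo 0 T → R < ‖x‖ → f (x, t) = 0) :
    Integrable f (volume.prod (volume.restrict (Ioo 0 T))) := by
  have hm : MeasurableSet (Metric.closedBall (0 : E 3) R ×ˢ (univ : Set ℝ)) :=
    measurableSet_closedBall.prod MeasurableSet.univ
  have hg : Integrable ((Metric.closedBall (0 : E 3) R ×ˢ (univ : Set ℝ)).indicator
      fun _ => (|B| : ℝ)) ((volume : Measure (E 3)).prod (volume.restrict (Ioo 0 T))) := by
    rw [integrable_indicator_iff hm]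
    refine integrableOn_const ?_
    rw [Measure.prod_prod]
    refine (ENNReal.mul_lt_top measure_closedBall_lt_top ?_).ne
    rw [Measure.restrict_apply MeasurableSet.univ, univ_inter]
    simp
  refine hg.mono' hf ?_
  have hae : ∀ᵐ z ∂((volume : Measure (E 3)).prod (volume.restrict (Ioo 0 T))),
      z.2 ∈ Ioo 0 T :=
    Measure.quasiMeasurePreserving_snd.ae (ae_restrict_mem measurableSet_Ioo)
  filter_upwards [hae] with z hz
  by_cases hzR : R < ‖z.1‖
  · have h1 : f z = 0 := hs z.1 z.2 hz hzR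
    rw [h1, norm_zero]
    exact indicator_nonneg (fun _ _ => abs_nonneg _) _
  · have h1 : z ∈ Metric.closedBall (0 : E 3) R ×ˢ (univ : Set ℝ) := by
      refine ⟨?_, mem_univ _⟩
      rw [mem_closedBall_zero_iff]
      exact not_lt.1 hzR
    rw [indicator_of_mem h1]
    exact (hb z.1 z.2 hz).trans (le_abs_self _)

/-- the scaled variable has norm greater than one far away -/
theorem far {T t : ℝ} (ht : t ∈ Ioo 0 T) (x : E 3) (hx : √(1 + T) < ‖x‖) :
    1 < ‖(1 + t) ^ (-(1 / 2) : ℝ) • x‖ := by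
  have ht0 : 0 < 1 + t := by linarith [ht.1]
  have h1 : 0 < (1 + t) ^ (-(1 / 2) : ℝ) := Real.rpow_pos_of_pos ht0 _
  rw [norm_smul, Real.norm_of_nonneg h1.le, Real.rpow_neg ht0.le, ← Real.sqrt_eq_rpow]
  have h2 : √(1 + t) < ‖x‖ := (Real.sqrt_le_sqrt (by linarith [ht.2])).trans_lt hx
  have h3 : 0 < √(1 + t) := Real.sqrt_pos.2 ht0
  rw [inv_mul_eq_div, lt_div_iff₀ h3, one_mul]
  exact h2

theorem rel' (hS : Scale) (F : E 3 → ℝ) (G : E 3 → E 3) (hF : Profile F G) (t : ℝ) (ht : 0 ≤ t)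
    (x : E 3) :
    (selfSim F x t) ^ ((3 / 2 : ℝ) - 1) •
        gradient (pot 3 (3 / 4) (fun y => selfSim F y t)) x =
      (-(1 / 2) * (1 + t) ^ (-2 : ℝ) * F ((1 + t) ^ (-(1 / 2) : ℝ) • x)) •
        ((1 + t) ^ (-(1 / 2) : ℝ) • x) := by
  have ht0 : 0 < 1 + t := by linarith
  rw [((hS F G hF t ht).2 x).gradient]
  set ξ : E 3 := (1 + t) ^ (-(1 / 2) : ℝ) • x with hξ
  have h1 : selfSim F x t = (1 + t) ^ (-(3 / 2) : ℝ) * F ξ := rfl
  rw [h1, Real.mul_rpow (Real.rpow_nonneg ht0.le _) (hF.nonneg ξ), ← Real.rpow_mul ht0.le,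
    smul_smul]
  have h2 : (1 + t) ^ (-(3 / 2 : ℝ) * (3 / 2 - 1)) * F ξ ^ ((3 / 2 : ℝ) - 1) *
      (1 + t) ^ (-(5 / 4) : ℝ) = (1 + t) ^ (-2 : ℝ) * F ξ ^ ((3 / 2 : ℝ) - 1) := by
    have h3 : (1 + t) ^ (-(3 / 2 : ℝ) * (3 / 2 - 1)) * (1 + t) ^ (-(5 / 4) : ℝ) =
        (1 + t) ^ (-2 : ℝ) := by
      rw [← Real.rpow_add ht0]
      norm_num
    rw [← h3]
    ring
  rw [h2, ← smul_smul, hF.rel ξ, smul_smul]
  congr 1
  ring

theorem taskWeak : TaskWeak := by
  intro hS hC F G hF T hT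
  have hτ : ∀ t ∈ Ioo 0 T, 0 < 1 + t := fun t ht => by linarith [ht.1]
  have hτ1 : ∀ t ∈ Ioo 0 T, 1 ≤ 1 + t := fun t ht => by linarith [ht.1]
  obtain ⟨B, hB⟩ := hF.bdd
  obtain ⟨C, hCC⟩ := hF.bddG
  have hB0 : 0 ≤ B := (hF.nonneg 0).trans (hB 0)
  have hξm : Measurable fun z : E 3 × ℝ => (1 + z.2) ^ (-(1 / 2) : ℝ) • z.1 := by fun_prop
  have hFm : Measurable fun z : E 3 × ℝ => F ((1 + z.2) ^ (-(1 / 2) : ℝ) • z.1) :=
    hF.measF.comp hξm
  have hGm : Measurable fun z : E 3 × ℝ => G ((1 + z.2) ^ (-(1 / 2) : ℝ) • z.1) :=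
    hF.measG.comp hξm
  have hle1 : ∀ (t : ℝ), t ∈ Ioo 0 T → ∀ p : ℝ, p ≤ 0 → (1 + t) ^ p ≤ 1 := fun t ht p hp =>
    Real.rpow_le_one_of_one_le_of_nonpos (hτ1 t ht) hp
  have hae : ∀ (μ : Measure (E 3)), ∀ᵐ z ∂(μ.prod (volume.restrict (Ioo 0 T))),
      z.2 ∈ Ioo 0 T := fun μ =>
    Measure.quasiMeasurePreserving_snd.ae (ae_restrict_mem measurableSet_Ioo)
  refine ⟨?_, ?_, ?_, ?_, ?_, ?_, ?_⟩
  · intro x t ht
    exact mul_nonneg (Real.rpow_nonneg (hτ t ht).le _) (hF.nonneg _)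
  · refine integ T (√(1 + T)) B _ ?_ ?_ ?_
    · have : Measurable fun z : E 3 × ℝ => selfSim F z.1 z.2 := by
        unfold selfSim
        exact Measurable.mul (by fun_prop) hFm
      exact this.aestronglyMeasurable
    · intro x t ht
      show ‖selfSim F x t‖ ≤ B
      unfold selfSim
      rw [Real.norm_of_nonneg (mul_nonneg (Real.rpow_nonneg (hτ t ht).le _) (hF.nonneg _))]
      calc (1 + t) ^ (-(3 / 2) : ℝ) * F ((1 + t) ^ (-(1 / 2) : ℝ) • x) ≤ 1 * B :=
            mul_le_mul (hle1 t ht _ (by norm_num)) (hB _) (hF.nonneg _) zero_le_one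
        _ = B := one_mul B
    · intro x t ht hx
      show selfSim F x t = 0
      unfold selfSim
      rw [hF.supp _ (far ht x hx), mul_zero]
  · intro t ht x
    exact (hS F G hF t ht.1.le).1 x
  · intro t ht x
    exact ((hS F G hF t ht.1.le).2 x).differentiableAt
  · intro R
    have h1 : Integrable (fun z : E 3 × ℝ => (1 + z.2) ^ (-(5 / 4) : ℝ) •
        G ((1 + z.2) ^ (-(1 / 2) : ℝ) • z.1))
        ((volume.restrict (Metric.ball 0 R)).prod (volume.restrict (Ioo 0 T))) := by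
      have hfin : IsFiniteMeasure ((volume : Measure (E 3)).restrict (Metric.ball 0 R)) :=
        ⟨by rw [Measure.restrict_apply MeasurableSet.univ, univ_inter]; exact measure_ball_lt_top⟩
      have hfin2 : IsFiniteMeasure ((volume : Measure ℝ).restrict (Ioo 0 T)) :=
        ⟨by rw [Measure.restrict_apply MeasurableSet.univ, univ_inter]; simp⟩
      refine (integrable_const (|C| : ℝ)).mono' ?_ ?_
      · have : Measurable fun z : E 3 × ℝ => (1 + z.2) ^ (-(5 / 4) : ℝ) •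
            G ((1 + z.2) ^ (-(1 / 2) : ℝ) • z.1) := by
          have h2 : Measurable fun z : E 3 × ℝ => (1 + z.2) ^ (-(5 / 4) : ℝ) := by fun_prop
          exact h2.smul hGm
        exact this.aestronglyMeasurable
      · filter_upwards [hae _] with z hz
        rw [norm_smul, Real.norm_of_nonneg (Real.rpow_nonneg (hτ _ hz).le _)]
        calc (1 + z.2) ^ (-(5 / 4) : ℝ) * ‖G ((1 + z.2) ^ (-(1 / 2) : ℝ) • z.1)‖ ≤ 1 * |C| :=
              mul_le_mul (hle1 _ hz _ (by norm_num)) ((hCC _).trans (le_abs_self _))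
                (norm_nonneg _) zero_le_one
          _ = |C| := one_mul _
    refine h1.congr ?_
    filter_upwards [hae _] with z hz
    exact ((hS F G hF z.2 hz.1.le).2 z.1).gradient.symm
  · have h1 : Integrable (fun z : E 3 × ℝ => (-(1 / 2) * (1 + z.2) ^ (-2 : ℝ) *
        F ((1 + z.2) ^ (-(1 / 2) : ℝ) • z.1)) • ((1 + z.2) ^ (-(1 / 2) : ℝ) • z.1))
        (volume.prod (volume.restrict (Ioo 0 T))) := by
      refine integ T (√(1 + T)) B _ ?_ ?_ ?_
      · have : Measurable fun z : E 3 × ℝ => (-(1 / 2) * (1 + z.2) ^ (-2 : ℝ) *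
            F ((1 + z.2) ^ (-(1 / 2) : ℝ) • z.1)) • ((1 + z.2) ^ (-(1 / 2) : ℝ) • z.1) := by
          have h2 : Measurable fun z : E 3 × ℝ => -(1 / 2) * (1 + z.2) ^ (-2 : ℝ) := by fun_prop
          exact (h2.mul hFm).smul hξm
        exact this.aestronglyMeasurable
      · intro x t ht
        show ‖(-(1 / 2) * (1 + t) ^ (-2 : ℝ) * F ((1 + t) ^ (-(1 / 2) : ℝ) • x)) •
          ((1 + t) ^ (-(1 / 2) : ℝ) • x)‖ ≤ B
        set ξ : E 3 := (1 + t) ^ (-(1 / 2) : ℝ) • x with hξ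
        rcases lt_or_ge 1 ‖ξ‖ with h2 | h2
        · rw [hF.supp _ h2, mul_zero, zero_smul, norm_zero]
          exact hB0
        · have h3 : 0 ≤ (1 + t) ^ (-2 : ℝ) := Real.rpow_nonneg (hτ t ht).le _
          have h4 : (1 + t) ^ (-2 : ℝ) ≤ 1 := hle1 t ht _ (by norm_num)
          rw [norm_smul, Real.norm_eq_abs]
          have h5 : |-(1 / 2) * (1 + t) ^ (-2 : ℝ) * F ξ| ≤ B := by
            rw [abs_mul, abs_mul, abs_of_nonneg h3, abs_of_nonneg (hF.nonneg ξ)]
            have h6 : |(-(1 / 2) : ℝ)| ≤ 1 := by norm_num [abs_of_neg]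
            have h7 : |(-(1 / 2) : ℝ)| * (1 + t) ^ (-2 : ℝ) ≤ 1 * 1 :=
              mul_le_mul h6 h4 h3 zero_le_one
            calc |(-(1 / 2) : ℝ)| * (1 + t) ^ (-2 : ℝ) * F ξ ≤ (1 * 1) * B :=
                  mul_le_mul h7 (hB ξ) (hF.nonneg ξ) (by norm_num)
              _ = B := by ring
          calc |-(1 / 2) * (1 + t) ^ (-2 : ℝ) * F ξ| * ‖ξ‖ ≤ B * 1 :=
                mul_le_mul h5 h2 (norm_nonneg _) hB0
            _ = B := mul_one B
      · intro x t ht hx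
        show (-(1 / 2) * (1 + t) ^ (-2 : ℝ) * F ((1 + t) ^ (-(1 / 2) : ℝ) • x)) •
          ((1 + t) ^ (-(1 / 2) : ℝ) • x) = 0
        rw [hF.supp _ (far ht x hx), mul_zero, zero_smul]
    refine h1.congr ?_
    filter_upwards [hae _] with z hz
    exact (rel' hS F G hF z.2 hz.1.le z.1).symm
  · intro φ hφ
    have h1 := hC F hF.measF hF.nonneg hF.bdd hF.supp T hT φ hφ
    have h3 : (∫ t in Ioo 0 T, ∫ x, (selfSim F x t) ^ ((3 / 2 : ℝ) - 1) *
        ⟪gradient (pot 3 (3 / 4) (fun y => selfSim F y t)) x, gradient (fun x' => φ (x', t)) x⟫) =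
        ∫ t in Ioo 0 T, ∫ x : E 3, (-(1 / 2) * (1 + t) ^ (-2 : ℝ) *
          F ((1 + t) ^ (-(1 / 2) : ℝ) • x)) *
          ⟪(1 + t) ^ (-(1 / 2) : ℝ) • x, gradient (fun x' => φ (x', t)) x⟫ := by
      refine setIntegral_congr_fun measurableSet_Ioo fun t ht => ?_
      refine integral_congr_ae (Eventually.of_forall fun x => ?_)
      have h2 := rel' hS F G hF t ht.1.le x
      show (selfSim F x t) ^ ((3 / 2 : ℝ) - 1) *
        ⟪gradient (pot 3 (3 / 4) (fun y => selfSim F y t)) x, gradient (fun x' => φ (x', t)) x⟫ = _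
      rw [← real_inner_smul_left, h2, real_inner_smul_left]
    rw [h3]
    exact h1

end Pool.Agent.H830R3.PM
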